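import Pool.Agent.FS.Access034.Cor

namespace Pool.Agent.Results.MP_034e58_gt.AccessPoints

open Pool.Agent.Lib.MP_034e58_gt.Th

/-- Let `P` meet the frontier of every component of the exterior of the nonempty open set `U`. If
fewer open sets than the bounding number cover `U` and the closure of each of them contains only
finitely many points of `P`, then `U` is homeomorphic to a dense open set. -/
theorem result (n : ℕ) (M : Type) [TopologicalSpace M] (hM : IsMfd n M) (U : Set M)
    (hU : IsOpen U) (hne : U.Nonempty) (P : Set M)
    (hP : ∀ d ∉ closure U, (P ∩ frontier (connectedComponentIn (closure U)ᶜ d)).Nonempty)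
    (ι : Type) (hι : Dominated ι) (O : ι → Set M) (hO : ∀ i, IsOpen (O i))
    (hc : U ⊆ ⋃ i, O i) (hf : ∀ i, (closure (O i) ∩ P).Finite) : DenseCopy U :=
  Pool.Agent.FS.Access034.acc_main hM hU hne P hP hι O hO hc hf

end Pool.Agent.Results.MP_034e58_gt.AccessPoints
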