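import Pool.Agent.Lib.MP_034e58_gt.Th.Main

namespace Pool.Agent.Results.MP_034e58_gt.Threshold

open Pool.Agent.Lib.MP_034e58_gt.Th

/-- The exact range of the statement. Nonempty unions of `ι` many charts of connected separable
`n`-manifolds always have a dense open copy if and only if `n ≤ 1` or `ι` has fewer elements than
the bounding number; the same holds for connected unions. For `n ≥ 2` and `ι = ℕ → ℕ` the first
condition fails, so there is a counterexample in every dimension `n ≥ 2`. -/
theorem result (n : ℕ) (ι : Type) : List.TFAE [n ≤ 1 ∨ Dominated ι,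
    ∀ (M : Type) [TopologicalSpace M], IsMfd n M → ∀ c : ι → Set M, (∀ i, IsChart n (c i)) →
      (⋃ i, c i).Nonempty → DenseCopy (⋃ i, c i),
    ∀ (M : Type) [TopologicalSpace M], IsMfd n M → ∀ c : ι → Set M, (∀ i, IsChart n (c i)) →
      IsConnected (⋃ i, c i) → DenseCopy (⋃ i, c i)] :=
  main n ι

end Pool.Agent.Results.MP_034e58_gt.Threshold
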